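import Pool.Agent.H10.M2w

namespace Pool.Agent.Results.MP_626926_al.IntoGr
open Pool.Agent.H10.M2w

theorem result (X : Type) [Countable X] [Infinite X] : EmbedsIn (Gr X) := (both X).2

end Pool.Agent.Results.MP_626926_al.IntoGr
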