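import Pool.Agent.H10.M2w

namespace Pool.Agent.Results.MP_626926_al.IntoMon
open Pool.Agent.H10.M2w

theorem result (X : Type) [Countable X] [Infinite X] : EmbedsIn (Mon X) := (both X).1

end Pool.Agent.Results.MP_626926_al.IntoMon
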